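import Pool.Agent.K1H88.GT.Stm2
import Pool.Agent.H353R2.Z2

/-!
# Counting quadruples for the differences of an integer polynomial
-/

set_option autoImplicit false

namespace Pool.Agent.K1H96.GT2.CNTP

open Finset Pool.Agent.K1H88.GT Polynomial

lemma poly_ne (P : ℤ[X]) (hP : 2 ≤ P.natDegree) (h : ℕ) (hh : 1 ≤ h) (v : ℤ) :
    P - P.comp (X - C (h : ℤ)) - C v ≠ 0 := by
  intro h0
  have h1 : ∀ x : ℤ, P.eval x = P.eval (x - h) + v := by
    intro x
    have := congrArg (Polynomial.eval x) h0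
    simp only [eval_sub, eval_comp, eval_X, eval_C, eval_zero] at this
    linarith
  have h2 : ∀ n : ℕ, P.eval ((h : ℤ) * n) = P.eval 0 + v * n := by
    intro n
    induction n with
    | zero => simp
    | succ n ih =>
      rw [h1]
      push_cast
      have : (h : ℤ) * (n + 1) - h = h * n := by ring
      rw [this, ih]; ring
  have h3 : P.comp (C (h : ℤ) * X) = C (P.eval 0) + C v * X := by
    apply Polynomial.eq_of_infinite_eval_eq
    apply Set.infinite_of_injective_forall_mem (f := fun n : ℕ => (n : ℤ)) Nat.cast_injective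
    intro n
    simp only [Set.mem_ofPred_eq, eval_comp, eval_mul, eval_C, eval_X, eval_add]
    exact h2 n
  have h4 := congrArg Polynomial.natDegree h3
  have hne : (h : ℤ) ≠ 0 := by positivity
  rw [Polynomial.natDegree_comp, natDegree_C_mul_X _ hne] at h4
  have h5 : (C (P.eval 0) + C v * X).natDegree ≤ 1 := by
    compute_degree
  omega

lemma eval_bound (P : ℤ[X]) : ∃ K : ℝ, 0 ≤ K ∧ ∀ B x : ℕ, 1 ≤ B → x ≤ B →
    |((P.eval (x : ℤ) : ℤ) : ℝ)| ≤ K * (B : ℝ) ^ P.natDegree := by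
  refine ⟨∑ i ∈ range (P.natDegree + 1), |(P.coeff i : ℝ)|, by positivity, ?_⟩
  intro B x hB hx
  rw [Polynomial.eval_eq_sum_range]
  push_cast
  rw [sum_mul]
  refine (abs_sum_le_sum_abs _ _).trans (sum_le_sum fun i hi => ?_)
  rw [abs_mul]
  apply mul_le_mul_of_nonneg_left _ (abs_nonneg _)
  rw [abs_pow, Nat.abs_cast]
  rw [mem_range] at hi
  calc (x : ℝ) ^ i ≤ (B : ℝ) ^ i := pow_le_pow_left₀ (Nat.cast_nonneg _) (by exact_mod_cast hx) i
    _ ≤ (B : ℝ) ^ P.natDegree := pow_le_pow_right₀ (by exact_mod_cast hB) (by omega)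

lemma fib (P : ℤ[X]) (hP : 2 ≤ P.natDegree) (A B h : ℕ) (hh : 1 ≤ h) (hA : h ≤ A) (v : ℤ) :
    ((Ioc A B).filter (fun m : ℕ => v = P.eval (m : ℤ) - P.eval ((m - h : ℕ) : ℤ))).card ≤
      P.natDegree := by
  classical
  obtain ⟨Q, hQ⟩ : ∃ Q, Q = P - P.comp (X - C (h : ℤ)) - C v := ⟨_, rfl⟩
  have hQ0 : Q ≠ 0 := by rw [hQ]; exact poly_ne P hP h hh v
  have hQd : Q.natDegree ≤ P.natDegree := by
    rw [hQ]
    refine (natDegree_sub_le _ _).trans
      (max_le ((natDegree_sub_le _ _).trans (max_le le_rfl ?_)) ?_)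
    · rw [natDegree_comp, natDegree_X_sub_C, mul_one]
    · rw [natDegree_C]; omega
  calc _ ≤ Q.roots.toFinset.card := by
        apply card_le_card_of_injOn (fun m : ℕ => (m : ℤ))
        · intro m hm
          have hm' := mem_filter.1 hm
          rw [mem_Ioc] at hm'
          rw [mem_coe, Multiset.mem_toFinset, mem_roots hQ0, IsRoot.def, hQ]
          have e1 : ((m - h : ℕ) : ℤ) = (m : ℤ) - h := Nat.cast_sub (by omega)
          have e2 := hm'.2
          rw [e1] at e2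
          simp only [eval_sub, eval_comp, eval_X, eval_C]
          linarith
        · exact Nat.cast_injective.injOn
    _ ≤ Multiset.card Q.roots := Multiset.toFinset_card_le _
    _ ≤ Q.natDegree := card_roots' Q
    _ ≤ _ := hQd

lemma ncard (P : ℤ[X]) (hP : 2 ≤ P.natDegree) (A B j : ℕ) (v : ℤ) (T : Finset ℕ)
    (hT : ∀ h ∈ T, 1 ≤ h ∧ h ≤ A)
    (hm : ∀ q ∈ Ioc A B ×ˢ Icc 1 j, v = P.eval ((q.1 : ℕ) : ℤ) - P.eval ((q.1 - q.2 : ℕ) : ℤ) →
      q.2 ∈ T) :
    ((Ioc A B ×ˢ Icc 1 j).filter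
      (fun q => v = P.eval ((q.1 : ℕ) : ℤ) - P.eval ((q.1 - q.2 : ℕ) : ℤ))).card ≤
      P.natDegree * T.card := by
  classical
  apply card_le_mul_card_image_of_maps_to (f := Prod.snd)
  · intro q hq
    exact hm q (mem_filter.1 hq).1 (mem_filter.1 hq).2
  · intro h hh
    refine le_trans ?_ (fib P hP A B h (hT h hh).1 (hT h hh).2 v)
    apply card_le_card_of_injOn Prod.fst
    · intro q hq
      have h1 := mem_filter.1 hq
      have h2 := mem_filter.1 h1.1
      rw [mem_coe, mem_filter]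
      refine ⟨(mem_product.1 h2.1).1, ?_⟩
      rw [← h1.2]
      exact h2.2
    · intro q hq q' hq' he
      have h1 := (mem_filter.1 hq).2
      have h2 := (mem_filter.1 hq').2
      exact Prod.ext he (h1.trans h2.symm)

theorem t_CNTP : S_CNTP := by
  classical
  intro P hP η hη
  obtain ⟨k, hk⟩ : ∃ k, k = P.natDegree := ⟨_, rfl⟩
  have hk2 : 2 ≤ k := by rw [hk]; exact hP
  have hkr : (0 : ℝ) < k := by exact_mod_cast (show 0 < k by omega)
  obtain ⟨K, hK, hKb⟩ := eval_bound P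
  obtain ⟨C2, hC2, hdiv⟩ := H353.divisor_bound_real (η / k) (by positivity)
  obtain ⟨E, hE⟩ : ∃ E : ℝ, E = (2 * K) ^ (η / k) := ⟨_, rfl⟩
  have hE0 : 0 ≤ E := by rw [hE]; positivity
  refine ⟨(k : ℝ) ^ 2 + k * (C2 * E), by positivity, fun A B j hj hjA hAB => ?_⟩
  have hB1 : 1 ≤ B := hj.trans (hjA.trans hAB)
  have hB1r : (1 : ℝ) ≤ B := by exact_mod_cast hB1
  have hB0r : (0 : ℝ) < B := by linarith
  let f : ℕ × ℕ → ℤ := fun q => P.eval ((q.1 : ℕ) : ℤ) - P.eval ((q.1 - q.2 : ℕ) : ℤ)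
  let S : Finset (ℕ × ℕ) := Ioc A B ×ˢ Icc 1 j
  let N : ℤ → ℕ := fun v => (S.filter (fun q => v = f q)).card
  have hmemS : ∀ q ∈ S, (A < q.1 ∧ q.1 ≤ B) ∧ (1 ≤ q.2 ∧ q.2 ≤ j) := by
    intro q hq
    have := mem_product.1 hq
    rw [mem_Ioc, mem_Icc] at this
    exact this
  have hcard : (solP (fun n => P.eval (n : ℤ)) A B j).card = ∑ q ∈ S, N (f q) := by
    unfold solP quad
    rw [card_filter, sum_product]
    refine sum_congr rfl fun q _ => ?_
    simp only [N]
    rw [card_filter]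
  have hN0 : N 0 ≤ k * j := by
    have h1 := ncard P hP A B j 0 (Icc 1 j) (by
      intro h hh; rw [mem_Icc] at hh; omega) (by
      intro q hq _
      exact (mem_product.1 hq).2)
    rw [Nat.card_Icc, Nat.add_sub_cancel, ← hk] at h1
    exact h1
  have hdvd : ∀ q ∈ S, (q.2 : ℤ) ∣ f q := by
    intro q hq
    have h1 := hmemS q hq
    have h2 := Polynomial.sub_dvd_eval_sub ((q.1 : ℕ) : ℤ) ((q.1 - q.2 : ℕ) : ℤ) P
    have h3 : ((q.1 : ℕ) : ℤ) - ((q.1 - q.2 : ℕ) : ℤ) = q.2 := by omega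
    rw [h3] at h2
    exact h2
  have hN1 : ∀ q ∈ S, f q ≠ 0 → (N (f q) : ℝ) ≤ k * (C2 * E * (B : ℝ) ^ η) := by
    intro q hq hf
    have h1 := ncard P hP A B j (f q) ((Icc 1 j).filter (fun h => h ∣ (f q).natAbs)) (by
      intro h hh; rw [mem_filter, mem_Icc] at hh; omega) (by
      intro q' hq' he
      rw [mem_filter]
      refine ⟨(mem_product.1 hq').2, ?_⟩
      have h2 := hdvd q' hq'
      have h3 : f q' = f q := he.symm
      rw [h3] at h2
      exact Int.natCast_dvd.1 h2)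
    have h2 : ((Icc 1 j).filter (fun h => h ∣ (f q).natAbs)).card ≤
        (Nat.divisors (f q).natAbs).card := by
      apply card_le_card
      intro h hh
      exact Nat.mem_divisors.2 ⟨(mem_filter.1 hh).2, Int.natAbs_ne_zero.2 hf⟩
    have h3 : N (f q) ≤ k * (Nat.divisors (f q).natAbs).card := by
      rw [← hk] at h1
      exact h1.trans (Nat.mul_le_mul_left _ h2)
    have h4 : (N (f q) : ℝ) ≤ k * ((Nat.divisors (f q).natAbs).card : ℝ) := by
      exact_mod_cast h3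
    refine h4.trans (mul_le_mul_of_nonneg_left ?_ hkr.le)
    refine (hdiv _ (Int.natAbs_ne_zero.2 hf)).trans ?_
    rw [mul_assoc]
    refine mul_le_mul_of_nonneg_left ?_ hC2.le
    have h5 : ((f q).natAbs : ℝ) ≤ 2 * K * (B : ℝ) ^ k := by
      rw [Nat.cast_natAbs, Int.cast_abs]
      have hb := hmemS q hq
      have e1 := hKb B q.1 hB1 hb.1.2
      have e2 := hKb B (q.1 - q.2) hB1 (by omega)
      rw [← hk] at e1 e2
      simp only [f]
      push_cast
      have e3 := abs_sub (((P.eval (q.1 : ℤ) : ℤ) : ℝ)) (((P.eval ((q.1 - q.2 : ℕ) : ℤ) : ℤ) : ℝ))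
      calc _ ≤ |((P.eval (q.1 : ℤ) : ℤ) : ℝ)| + |((P.eval ((q.1 - q.2 : ℕ) : ℤ) : ℤ) : ℝ)| := e3
        _ ≤ 2 * K * (B : ℝ) ^ k := by linarith
    calc ((f q).natAbs : ℝ) ^ (η / k) ≤ (2 * K * (B : ℝ) ^ k) ^ (η / k) :=
          Real.rpow_le_rpow (Nat.cast_nonneg _) h5 (by positivity)
      _ = (2 * K) ^ (η / k) * ((B : ℝ) ^ k) ^ (η / k) :=
          Real.mul_rpow (by positivity) (by positivity)
      _ = E * (B : ℝ) ^ η := by
          rw [hE]
          congr 1
          rw [← Real.rpow_natCast, ← Real.rpow_mul hB0r.le]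
          congr 1
          field_simp
  have hpow : (B : ℝ) ^ (1 + η) = B * (B : ℝ) ^ η := by
    rw [Real.rpow_add hB0r, Real.rpow_one]
  have hBη : 1 ≤ (B : ℝ) ^ η := Real.one_le_rpow hB1r hη.le
  have hjB : (j : ℝ) ≤ B := by exact_mod_cast hjA.trans hAB
  have hj0 : (0 : ℝ) ≤ j := Nat.cast_nonneg _
  rw [hcard]
  push_cast
  rw [← sum_filter_add_sum_filter_not S (fun q => 0 = f q)]
  have hS0 : ∑ q ∈ S.filter (fun q => 0 = f q), (N (f q) : ℝ) ≤ (k * j) * (k * j) := by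
    calc ∑ q ∈ S.filter (fun q => 0 = f q), (N (f q) : ℝ)
        ≤ ∑ q ∈ S.filter (fun q => 0 = f q), ((k : ℝ) * j) := by
          refine sum_le_sum fun q hq => ?_
          rw [← (mem_filter.1 hq).2]
          exact_mod_cast hN0
      _ = (N 0 : ℝ) * (k * j) := by
          rw [sum_const, nsmul_eq_mul]
      _ ≤ (k * j) * (k * j) := by
          apply mul_le_mul_of_nonneg_right _ (by positivity)
          exact_mod_cast hN0
  have hS1 : ∑ q ∈ S.filter (fun q => ¬ 0 = f q), (N (f q) : ℝ) ≤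
      (B * j) * (k * (C2 * E * (B : ℝ) ^ η)) := by
    calc ∑ q ∈ S.filter (fun q => ¬ 0 = f q), (N (f q) : ℝ)
        ≤ ∑ q ∈ S.filter (fun q => ¬ 0 = f q), (k * (C2 * E * (B : ℝ) ^ η)) := by
          refine sum_le_sum fun q hq => ?_
          exact hN1 q (mem_filter.1 hq).1 (fun h => (mem_filter.1 hq).2 h.symm)
      _ = ((S.filter (fun q => ¬ 0 = f q)).card : ℝ) * (k * (C2 * E * (B : ℝ) ^ η)) := by
          rw [sum_const, nsmul_eq_mul]
      _ ≤ (B * j) * (k * (C2 * E * (B : ℝ) ^ η)) := by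
          apply mul_le_mul_of_nonneg_right _ (by positivity)
          have h1 : (S.filter (fun q => ¬ 0 = f q)).card ≤ B * j := by
            refine (card_filter_le _ _).trans ?_
            simp only [S]
            rw [card_product, Nat.card_Ioc, Nat.card_Icc, Nat.add_sub_cancel]
            exact Nat.mul_le_mul_right _ (Nat.sub_le _ _)
          exact_mod_cast h1
  refine (add_le_add hS0 hS1).trans ?_
  rw [hpow]
  have e1 : (k * j : ℝ) * (k * j) ≤ (k : ℝ) ^ 2 * (B * (B : ℝ) ^ η) * j := by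
    calc (k * j : ℝ) * (k * j) = (k : ℝ) ^ 2 * (j * 1) * j := by ring
      _ ≤ (k : ℝ) ^ 2 * (B * (B : ℝ) ^ η) * j := by gcongr
  calc _ ≤ (k : ℝ) ^ 2 * (B * (B : ℝ) ^ η) * j + (B * j) * (k * (C2 * E * (B : ℝ) ^ η)) :=
        add_le_add e1 le_rfl
    _ = ((k : ℝ) ^ 2 + k * (C2 * E)) * (B * (B : ℝ) ^ η) * j := by ring

end Pool.Agent.K1H96.GT2.CNTP
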